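import Pool.Agent.H474.MS.Stm

/-! L4: convergence of `S(h) / h`. -/

set_option autoImplicit false

open MeasureTheory Filter Topology Set

namespace Pool.Agent.H264.MS.L4

open Pool.Agent.H474.MS

variable {ι : Type} {w g : ι → ℝ}

theorem sum_R (hd : Dat w g) (T : ℝ) : Summable (fun i => if T < g i then w i else 0) := by
  refine Summable.of_nonneg_of_le (fun i => ?_) (fun i => ?_) hd.ws
  · split_ifs
    · exact hd.w0 i
    · exact le_rfl
  · split_ifs
    · exact le_rfl
    · exact hd.w0 i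

theorem cos_bd (x : ℝ) : 0 ≤ 2 * (1 - Real.cos x) ∧ 2 * (1 - Real.cos x) ≤ 4 := by
  have h1 := Real.cos_le_one x
  have h2 := Real.neg_one_le_cos x
  constructor
  · linarith
  · linarith

theorem sum_cos (hd : Dat w g) (x : ι → ℝ) :
    Summable (fun i => w i * (2 * (1 - Real.cos (x i)))) := by
  refine Summable.of_nonneg_of_le (fun i => ?_) (fun i => ?_) (hd.ws.mul_right 4)
  · exact mul_nonneg (hd.w0 i) (cos_bd _).1
  · exact mul_le_mul_of_nonneg_left (cos_bd _).2 (hd.w0 i)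

theorem RR_nonneg (hd : Dat w g) (T : ℝ) : 0 ≤ RR w g T := by
  apply tsum_nonneg
  intro i
  split_ifs
  · exact hd.w0 i
  · exact le_rfl

theorem RR_le (hd : Dat w g) (T : ℝ) : RR w g T ≤ ∑' i, w i := by
  refine (sum_R hd T).tsum_le_tsum (fun i => ?_) hd.ws
  split_ifs
  · exact le_rfl
  · exact hd.w0 i

theorem bound (hd : Dat w g) {α : ℝ} (h : Tendsto (fun T => T * RR w g T) atTop (𝓝 α)) :
    ∃ C, 0 ≤ C ∧ ∀ T, 0 < T → T * RR w g T ≤ C := by
  have h1 : ∀ᶠ T in atTop, T * RR w g T < α + 1 := h.eventually_lt_const (by linarith)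
  obtain ⟨U, hU⟩ := eventually_atTop.1 h1
  refine ⟨max (|α| + 1) (|U| * ∑' i, w i), le_max_of_le_left (by positivity), fun T hT => ?_⟩
  rcases le_total U T with h2 | h2
  · exact ((hU T h2).le.trans (by linarith [le_abs_self α])).trans (le_max_left _ _)
  · refine le_trans ?_ (le_max_right _ _)
    have h3 : T ≤ |U| := h2.trans (le_abs_self U)
    exact mul_le_mul h3 (RR_le hd T) (RR_nonneg hd T) (abs_nonneg U)

theorem diff (hd : Dat w g) (m : ℕ) {h : ℝ} (hh : 0 < h) :
    0 ≤ SS w g h - ∑' i, w i * (2 * (1 - Real.cos (min (g i * h) (m * (2 * Real.pi))))) ∧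
    SS w g h - ∑' i, w i * (2 * (1 - Real.cos (min (g i * h) (m * (2 * Real.pi))))) ≤
      4 * RR w g (m * (2 * Real.pi) / h) := by
  have sa := sum_cos hd (fun i => g i * h)
  have sb := sum_cos hd (fun i => min (g i * h) (m * (2 * Real.pi)))
  have e : SS w g h - ∑' i, w i * (2 * (1 - Real.cos (min (g i * h) (m * (2 * Real.pi))))) =
      ∑' i, (w i * (2 * (1 - Real.cos (g i * h))) -
        w i * (2 * (1 - Real.cos (min (g i * h) (m * (2 * Real.pi)))))) := (sa.tsum_sub sb).symm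
  have ht : ∀ i, 0 ≤ w i * (2 * (1 - Real.cos (g i * h))) -
        w i * (2 * (1 - Real.cos (min (g i * h) (m * (2 * Real.pi))))) ∧
      w i * (2 * (1 - Real.cos (g i * h))) -
        w i * (2 * (1 - Real.cos (min (g i * h) (m * (2 * Real.pi))))) ≤
        4 * (if m * (2 * Real.pi) / h < g i then w i else 0) := by
    intro i
    rcases le_or_gt (g i * h) (m * (2 * Real.pi)) with hle | hlt
    · rw [min_eq_left hle, sub_self]
      refine ⟨le_rfl, mul_nonneg (by norm_num) ?_⟩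
      split_ifs
      · exact hd.w0 i
      · exact le_rfl
    · rw [min_eq_right hlt.le, Real.cos_nat_mul_two_pi, if_pos ((div_lt_iff₀ hh).2 hlt)]
      have h1 := mul_nonneg (hd.w0 i) (cos_bd (g i * h)).1
      have h2 := mul_le_mul_of_nonneg_left (cos_bd (g i * h)).2 (hd.w0 i)
      constructor
      · linarith
      · linarith
  rw [e]
  constructor
  · exact tsum_nonneg fun i => (ht i).1
  · have h4 : 4 * RR w g (m * (2 * Real.pi) / h) =
        ∑' i, 4 * (if m * (2 * Real.pi) / h < g i then w i else 0) := by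
      rw [tsum_mul_left]
      rfl
    rw [h4]
    exact (sa.sub sb).tsum_le_tsum (fun i => (ht i).2) ((sum_R hd _).mul_left 4)

theorem t_L4 (h2 : Pool.Agent.H474.MS.S_L2) (h3 : Pool.Agent.H474.MS.S_L3) :
    Pool.Agent.H474.MS.S_L4 := by
  intro ι _ w g hd α hα
  obtain ⟨C, hC0, hC⟩ := bound hd hα
  -- the estimate for one cut
  have key : ∀ m : ℕ, ∃ β : ℝ, ∀ᶠ h in 𝓝[>] (0 : ℝ), |SS w g h / h - β| ≤ (4 * C + 1) / (m + 1) := by
    intro m
    set R : ℝ := ((m + 1 : ℕ) : ℝ) * (2 * Real.pi) with hR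
    have hm0 : (0 : ℝ) < (m : ℝ) + 1 := by positivity
    have hRm : (m : ℝ) + 1 ≤ R := by
      rw [hR]
      push_cast
      have : (1 : ℝ) ≤ 2 * Real.pi := by linarith [Real.pi_gt_three]
      exact le_mul_of_one_le_right hm0.le this
    have hR0 : 0 < R := lt_of_lt_of_le hm0 hRm
    refine ⟨α * ∫ s in (0 : ℝ)..R, 2 * Real.sin s / s, ?_⟩
    have h4 := h3 ι w g hd α hα R hR0
    have h5 : ∀ᶠ h in 𝓝[>] (0 : ℝ), |(∫ s in (0 : ℝ)..R, 2 * Real.sin s * RR w g (s / h)) / h -
        α * ∫ s in (0 : ℝ)..R, 2 * Real.sin s / s| < 1 / (m + 1) := by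
      have := (Metric.tendsto_nhds.1 h4) (1 / (m + 1)) (by positivity)
      simpa only [Real.dist_eq] using this
    filter_upwards [h5, self_mem_nhdsWithin] with h h6 h7
    have hh : 0 < h := h7
    obtain ⟨d1, d2⟩ := diff hd (m + 1) hh
    rw [← hR, h2 ι w g hd R h hR0.le hh] at d1 d2
    have h8 : 4 * RR w g (R / h) / h ≤ 4 * C / (m + 1) := by
      have h9 := hC (R / h) (div_pos hR0 hh)
      have h10 : 4 * RR w g (R / h) / h = 4 * (R / h * RR w g (R / h)) / R := by
        field_simp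
      rw [h10]
      have h11 : 4 * (R / h * RR w g (R / h)) / R ≤ 4 * C / R :=
        div_le_div_of_nonneg_right (by linarith) hR0.le
      exact h11.trans (div_le_div_of_nonneg_left (by linarith) hm0 hRm)
    have h12 : |SS w g h / h - (∫ s in (0 : ℝ)..R, 2 * Real.sin s * RR w g (s / h)) / h| ≤
        4 * C / (m + 1) := by
      rw [← sub_div, abs_of_nonneg (div_nonneg d1 hh.le)]
      exact (div_le_div_of_nonneg_right d2 hh.le).trans h8
    have h13 := abs_sub_le (SS w g h / h)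
      ((∫ s in (0 : ℝ)..R, 2 * Real.sin s * RR w g (s / h)) / h)
      (α * ∫ s in (0 : ℝ)..R, 2 * Real.sin s / s)
    rw [add_div]
    linarith
  -- Cauchy
  rw [← cauchy_map_iff_exists_tendsto, Metric.cauchy_iff]
  refine ⟨inferInstance, fun ε hε => ?_⟩
  obtain ⟨m, hm⟩ := exists_nat_gt (2 * (4 * C + 1) / ε)
  obtain ⟨β, hβ⟩ := key m
  refine ⟨{x | |x - β| ≤ (4 * C + 1) / (m + 1)}, hβ, ?_⟩
  intro x hx y hy
  have h1 : (4 * C + 1) / (m + 1) < ε / 2 := by
    rw [div_lt_iff₀ (by positivity)]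
    rw [div_lt_iff₀ hε] at hm
    nlinarith
  have hx' : |x - β| ≤ (4 * C + 1) / (m + 1) := hx
  have hy' : |y - β| ≤ (4 * C + 1) / (m + 1) := hy
  rw [Real.dist_eq]
  have h2 := abs_sub_le x β y
  rw [abs_sub_comm β y] at h2
  linarith

end Pool.Agent.H264.MS.L4
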